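import Pool.Agent.ZDV.Stmt

set_option autoImplicit false

namespace Pool.Agent.Results.MP_5244df_gt.NoPrimitive

open MeasureTheory ZDV
open scoped ContDiff

/-- The dimension is `n = 2 q + 2`. -/
theorem result (q : ℕ) (_hq : 2 ≤ q) (c : ℕ → ℝ) :
    TorusZero q c ∧ LocInv q c ∧ (Decomp q c → ∀ i, 1 ≤ i → 2 * i ≤ q → c i = 0) := by
  refine ⟨fun g hg hper => int_torus hg hper q c,
    fun g hg w hw => int_local hg hw.1 hw.2 q c, ?_⟩
  rintro ⟨A, B, G, Φ, hA, ⟨hB, hlin, hsym⟩, hΦ, hdec⟩ i hi hiq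
  have ci : ∀ f : E (2 * q + 1) → ℝ, Continuous f →
      IntegrableOn f (Set.Icc (0 : E (2 * q + 1)) 1) := fun f hf =>
    hf.continuousOn.integrableOn_compact isCompact_Icc
  have cw : ∀ w : SP (2 * q + 1), Continuous (w : E (2 * q + 1) → ℝ) := fun w =>
    w.2.1.continuous
  have cB : ∀ w : SP (2 * q + 1), Continuous (B w.1) := fun w => hB w.1 w.2
  have badd : ∀ v w : SP (2 * q + 1), ∀ x, B (v + w : SP (2 * q + 1)).1 x =
      B v.1 x + B w.1 x := by
    intro v w x
    have h := hlin v.1 w.1 v.2 w.2 1 x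
    simp only [one_mul] at h
    exact h
  have bz : ∀ x, B (0 : SP (2 * q + 1)).1 x = 0 := by
    intro x
    have h := badd 0 0 x
    rw [add_zero] at h
    linarith
  have bsmul : ∀ (r : ℝ) (w : SP (2 * q + 1)), ∀ x, B (r • w : SP (2 * q + 1)).1 x =
      r * B w.1 x := by
    intro r w x
    have h := hlin (0 : SP (2 * q + 1)).1 w.1 (0 : SP (2 * q + 1)).2 w.2 r x
    rw [bz, zero_add] at h
    rw [← h]
    congr 1
    funext y
    simp
  let ℓ : SP (2 * q + 1) →ₗ[ℝ] ℝ :=
    { toFun := fun w => ∫ x in Set.Icc (0 : E (2 * q + 1)) 1, (w : E (2 * q + 1) → ℝ) x * A x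
      map_add' := fun v w => by
        refine Eq.trans ?_ (integral_add (ci _ ((cw v).mul hA)) (ci _ ((cw w).mul hA)))
        refine integral_congr_ae (Filter.Eventually.of_forall fun x => ?_)
        simp only [Submodule.coe_add, Pi.add_apply]
        ring
      map_smul' := fun r w => by
        rw [RingHom.id_apply, smul_eq_mul, ← integral_const_mul]
        refine integral_congr_ae (Filter.Eventually.of_forall fun x => ?_)
        simp only [Submodule.coe_smul, Pi.smul_apply, smul_eq_mul]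
        ring }
  let b : SP (2 * q + 1) →ₗ[ℝ] SP (2 * q + 1) →ₗ[ℝ] ℝ :=
    LinearMap.mk₂ ℝ (fun v w => ∫ x in Set.Icc (0 : E (2 * q + 1)) 1,
      (w : E (2 * q + 1) → ℝ) x * B v.1 x)
      (fun v v' w => by
        refine Eq.trans ?_ (integral_add (ci _ ((cw w).mul (cB v))) (ci _ ((cw w).mul (cB v'))))
        refine integral_congr_ae (Filter.Eventually.of_forall fun x => ?_)
        simp only [badd]
        ring)
      (fun r v w => by
        rw [smul_eq_mul, ← integral_const_mul]
        refine integral_congr_ae (Filter.Eventually.of_forall fun x => ?_)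
        simp only [bsmul]
        ring)
      (fun v w w' => by
        refine Eq.trans ?_ (integral_add (ci _ ((cw w).mul (cB v))) (ci _ ((cw w').mul (cB v))))
        refine integral_congr_ae (Filter.Eventually.of_forall fun x => ?_)
        simp only [Submodule.coe_add, Pi.add_apply]
        ring)
      (fun r v w => by
        rw [smul_eq_mul, ← integral_const_mul]
        refine integral_congr_ae (Filter.Eventually.of_forall fun x => ?_)
        simp only [Submodule.coe_smul, Pi.smul_apply, smul_eq_mul]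
        ring)
  have hb : ∀ v w, b v w = b w v := fun v w => hsym v.1 w.1 v.2 w.2
  refine no_primitive (ℓ := ℓ) (b := b) hb (Φ := fun w => Φ w.1) (fun v w => ?_) hi hiq
  have hd0 : HasDerivAt (fun ε : ℝ => Φ (v + ε • w : SP (2 * q + 1)).1)
      (tint (fun x => w.1 x * G v.1 x)) 0 := hΦ v.1 w.1 v.2 w.2
  refine hd0.congr_deriv ?_
  have hd : Continuous (dens q c (cnf (v : E (2 * q + 1) → ℝ) flat)) :=
    (sm_dens (isMet_cnf isMet_flat v.2.1) q c).continuous
  have h1 : ∀ x, (w : E (2 * q + 1) → ℝ) x * G v.1 x =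
      (w : E (2 * q + 1) → ℝ) x * dens q c (cnf v flat) x -
      (w : E (2 * q + 1) → ℝ) x * A x - (w : E (2 * q + 1) → ℝ) x * B v.1 x := by
    intro x
    rw [hdec v.1 v.2 x]
    ring
  have h2 := integral_sub (ci _ ((cw w).mul hd)) (ci _ ((cw w).mul hA))
  have h3 := integral_sub (ci _ (((cw w).mul hd).sub ((cw w).mul hA)))
    (ci _ ((cw w).mul (cB v)))
  have h4 : ∫ x in Set.Icc (0 : E (2 * q + 1)) 1, (w : E (2 * q + 1) → ℝ) x * G v.1 x =
      (∫ x in Set.Icc (0 : E (2 * q + 1)) 1,
        (w : E (2 * q + 1) → ℝ) x * dens q c (cnf v flat) x) -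
      (∫ x in Set.Icc (0 : E (2 * q + 1)) 1, (w : E (2 * q + 1) → ℝ) x * A x) -
      ∫ x in Set.Icc (0 : E (2 * q + 1)) 1, (w : E (2 * q + 1) → ℝ) x * B v.1 x := by
    refine Eq.trans ?_ (h3.trans (congrArg (fun t => t - ∫ x in Set.Icc (0 : E (2 * q + 1)) 1,
      (w : E (2 * q + 1) → ℝ) x * B v.1 x) h2))
    exact integral_congr_ae (Filter.Eventually.of_forall fun x => h1 x)
  exact h4

end Pool.Agent.Results.MP_5244df_gt.NoPrimitive
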